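import Pool.Agent.Helper20.EQ.St4

/-!
# Project EQ, module NVA (numbers)
-/

set_option autoImplicit false

open MeasureTheory Set Filter Topology
open scoped ENNReal RealInnerProductSpace

namespace Pool.Agent.Helper36.EQ

open Pool.Agent.Helper20.RG Pool.Agent.Helper20.EQ

/-- Module NVA. -/
theorem hNVA : StNVA := by
  intro Cf A p Cρ hCf hA hp2 hp3
  have hc1 : (1 : ℝ) ≤ (Cρ : ℝ) + 1 := by
    have := Nat.cast_nonneg (α := ℝ) Cρ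
    linarith
  obtain ⟨c, hc⟩ : ∃ c : ℝ, c = (Cρ : ℝ) + 1 := ⟨_, rfl⟩
  rw [← hc] at hc1
  have hc0 : 0 < c := by linarith
  refine ⟨0, 10 * (64 * 4096) * 16 * 1026 * c ^ 8 * (Cf * (1 + A)), by positivity, ?_⟩
  intro u v t ρ η m₁ _ hNu
  obtain ⟨hu2, hv, hux, hut, -, hη, hm⟩ := hNu
  have hU : (1 : ℝ) ≤ u := by exact_mod_cast (by omega : 1 ≤ u)
  have hU0 : (0 : ℝ) < u := by linarith
  have hV : (v : ℝ) = c * u := by rw [hv, hc]; push_cast; ring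
  have hV1 : (1 : ℝ) ≤ v := by rw [hV]; nlinarith
  have hV0 : (0 : ℝ) < v := by linarith
  have hp1 : 0 < p + 1 := by linarith
  have hp0 : 0 < p := by linarith
  obtain ⟨M, hM⟩ : ∃ M : ℝ, M = (2 : ℝ) ^ ((u : ℝ) * (p / (p + 1))) := ⟨_, rfl⟩
  have hM1 : 1 ≤ M := by
    rw [hM]
    exact Real.one_le_rpow (by norm_num) (by positivity)
  have hM0 : 0 < M := by linarith
  refine ⟨⌈M⌉₊, Nat.one_le_ceil_iff.2 hM0, ?_⟩
  have hT1 : M ≤ (⌈M⌉₊ : ℝ) := Nat.le_ceil _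
  have hT2 : (⌈M⌉₊ : ℝ) ≤ 2 * M := by
    have := Nat.ceil_lt_add_one hM0.le
    linarith
  have hpow : (⌈M⌉₊ : ℝ) ^ (-(1 / p)) ≤ (2 : ℝ) ^ (-((u : ℝ) / (p + 1))) := by
    refine (Real.rpow_le_rpow_of_nonpos hM0 hT1 (by
      have : 0 < 1 / p := by positivity
      linarith)).trans (le_of_eq ?_)
    rw [hM, ← Real.rpow_mul (by norm_num)]
    congr 1
    field_simp
  have hNT : (2 : ℝ) ^ u * (A * (⌈M⌉₊ : ℝ) ^ (-(1 / p))) ≤ A * M := by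
    have h1 : (2 : ℝ) ^ u * (⌈M⌉₊ : ℝ) ^ (-(1 / p)) ≤ M := by
      calc (2 : ℝ) ^ u * (⌈M⌉₊ : ℝ) ^ (-(1 / p))
          ≤ (2 : ℝ) ^ u * (2 : ℝ) ^ (-((u : ℝ) / (p + 1))) := by gcongr
        _ = M := by
            rw [hM, ← Real.rpow_natCast 2 u, ← Real.rpow_add (by norm_num)]
            congr 1
            field_simp
            ring
    calc (2 : ℝ) ^ u * (A * (⌈M⌉₊ : ℝ) ^ (-(1 / p)))
        = A * ((2 : ℝ) ^ u * (⌈M⌉₊ : ℝ) ^ (-(1 / p))) := by ring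
      _ ≤ A * M := by gcongr
  have hmu : mu u A p ((2 : ℝ) ^ 0 * (1024 * (v : ℝ) ^ 2)) (⌈M⌉₊ : ℝ) ≤
      1026 * (v : ℝ) ^ 2 * (1 + A) * M := by
    unfold mu
    have hv2 : (1 : ℝ) ≤ (v : ℝ) ^ 2 := by nlinarith
    calc (⌈M⌉₊ : ℝ) + (2 : ℝ) ^ 0 * (1024 * (v : ℝ) ^ 2) *
          (1 + (2 : ℝ) ^ u * (A * (⌈M⌉₊ : ℝ) ^ (-(1 / p))))
        ≤ 2 * M + (2 : ℝ) ^ 0 * (1024 * (v : ℝ) ^ 2) * (1 + A * M) := by gcongr
      _ ≤ 2 * ((v : ℝ) ^ 2 * (1 + A) * M) + 1024 * (v : ℝ) ^ 2 * ((1 + A) * M) := by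
          have ha : M ≤ (v : ℝ) ^ 2 * (1 + A) * M := by
            have : 1 ≤ (v : ℝ) ^ 2 * (1 + A) := by nlinarith
            nlinarith
          have hb : 1 + A * M ≤ (1 + A) * M := by nlinarith
          have hb' : 1024 * (v : ℝ) ^ 2 * (1 + A * M) ≤ 1024 * (v : ℝ) ^ 2 * ((1 + A) * M) := by
            gcongr
          rw [pow_zero, one_mul]
          linarith
      _ = 1026 * (v : ℝ) ^ 2 * (1 + A) * M := by ring
  have hm1 : 1 / m₁ ≤ 10 * v * (2 : ℝ) ^ (-((1 - e1 p) * t)) := by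
    rw [hm, Real.rpow_neg (by norm_num), one_div, inv_div, div_eq_mul_inv]
    have : 2 * (3 * (v : ℝ) + 2) ≤ 10 * v := by linarith
    gcongr
  have hηi : 2 * Ms v / η = 8 * Ms v * (2 : ℝ) ^ (ρ : ℝ) := by
    have e1' : η = (4 * (2 : ℝ) ^ ρ)⁻¹ := by
      rw [hη, zpow_neg, zpow_add₀ (by norm_num), zpow_natCast]
      norm_num
      ring
    rw [e1', Real.rpow_natCast, div_inv_eq_mul]
    ring
  have hMs0 : 0 ≤ Ms v := by unfold Ms; positivity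
  have hMs : Ms v ≤ 64 * (v : ℝ) ^ 2 := by
    unfold Ms
    nlinarith
  have h2 : (2 * Ms v / η) ^ 2 ≤ 64 * 4096 * (v : ℝ) ^ 4 * (2 : ℝ) ^ (2 * (ρ : ℝ)) := by
    rw [hηi]
    have e2 : (2 : ℝ) ^ (2 * (ρ : ℝ)) = ((2 : ℝ) ^ (ρ : ℝ)) ^ 2 := by
      rw [← Real.rpow_natCast, ← Real.rpow_mul (by norm_num)]
      congr 1
      push_cast
      ring
    rw [e2]
    calc (8 * Ms v * (2 : ℝ) ^ (ρ : ℝ)) ^ 2 ≤ (8 * (64 * (v : ℝ) ^ 2) * (2 : ℝ) ^ (ρ : ℝ)) ^ 2 := by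
          gcongr
      _ = _ := by ring
  have hux8 : (u : ℝ) ^ 8 ≤ (2 : ℝ) ^ (8 * (dl p * t)) := by
    calc (u : ℝ) ^ 8 ≤ ((2 : ℝ) ^ (dl p * t)) ^ 8 := by gcongr
      _ = _ := by
        rw [← Real.rpow_natCast, ← Real.rpow_mul (by norm_num)]
        congr 1
        push_cast
        ring
  have hmu0 : 0 ≤ mu u A p ((2 : ℝ) ^ 0 * (1024 * (v : ℝ) ^ 2)) (⌈M⌉₊ : ℝ) := by
    unfold mu; positivity
  have hexp : 8 * (dl p * t) + (-((1 - e1 p) * t)) + 2 * (ρ : ℝ) + (u : ℝ) * (p / (p + 1)) ≤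
      tg p u t ρ := by
    unfold tg
    have hρ : 0 ≤ (p - 2) * (ρ : ℝ) := mul_nonneg (by linarith) (Nat.cast_nonneg _)
    have ht : (0 : ℝ) ≤ t := Nat.cast_nonneg _
    have hq : p - p / (p + 1) = p ^ 2 / (p + 1) := by
      field_simp
      ring
    have hu' : (1 - e1 p) * t * (p ^ 2 / (p + 1)) ≤ u * (p ^ 2 / (p + 1)) := by gcongr
    have hq1 : p ^ 2 / (p + 1) = p - 1 + 1 / (p + 1) := by
      field_simp
      ring
    have hq2 : 1 / 4 ≤ 1 / (p + 1) := by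
      apply one_div_le_one_div_of_le hp1
      linarith
    have hq3 : p ^ 2 / (p + 1) ≤ 9 / 4 := by
      rw [div_le_iff₀ hp1]
      nlinarith
    have he0 : 0 ≤ e1 p := by unfold e1; linarith
    have he1 : e1 p ≤ 1 / 100 := by unfold e1; linarith
    have hdl : dl p = e1 p / 20 := by unfold dl e1; ring
    have hkey : 0 ≤ (t : ℝ) * (1 / (p + 1) - e1 p * (p ^ 2 / (p + 1)) - 2 * e1 p - 8 * dl p) := by
      apply mul_nonneg ht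
      have : e1 p * (p ^ 2 / (p + 1)) ≤ e1 p * (9 / 4) := by gcongr
      rw [hdl]
      linarith
    have hup : (u : ℝ) * (p / (p + 1)) = u * p - u * (p ^ 2 / (p + 1)) := by
      rw [← hq]; ring
    rw [hup]
    have hu'' : (1 - e1 p) * t * (p ^ 2 / (p + 1)) =
        t * (p - 1 + 1 / (p + 1)) - t * (e1 p * (p ^ 2 / (p + 1))) := by
      rw [← hq1]; ring
    rw [hu''] at hu'
    nlinarith
  calc 1 / m₁ * (2 * Ms v / η) ^ 2 *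
        (16 * v * (Cf * mu u A p ((2 : ℝ) ^ 0 * (1024 * (v : ℝ) ^ 2)) (⌈M⌉₊ : ℝ)))
      ≤ (10 * v * (2 : ℝ) ^ (-((1 - e1 p) * t))) *
        (64 * 4096 * (v : ℝ) ^ 4 * (2 : ℝ) ^ (2 * (ρ : ℝ))) *
        (16 * v * (Cf * (1026 * (v : ℝ) ^ 2 * (1 + A) * M))) := by gcongr
    _ = 10 * (64 * 4096) * 16 * 1026 * c ^ 8 * (Cf * (1 + A)) *
        ((u : ℝ) ^ 8 * (2 : ℝ) ^ (-((1 - e1 p) * t)) * (2 : ℝ) ^ (2 * (ρ : ℝ)) *
          (2 : ℝ) ^ ((u : ℝ) * (p / (p + 1)))) := by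
        rw [hV, hM]; ring
    _ ≤ 10 * (64 * 4096) * 16 * 1026 * c ^ 8 * (Cf * (1 + A)) *
        ((2 : ℝ) ^ (8 * (dl p * t)) * (2 : ℝ) ^ (-((1 - e1 p) * t)) * (2 : ℝ) ^ (2 * (ρ : ℝ)) *
          (2 : ℝ) ^ ((u : ℝ) * (p / (p + 1)))) := by gcongr
    _ = 10 * (64 * 4096) * 16 * 1026 * c ^ 8 * (Cf * (1 + A)) *
        (2 : ℝ) ^ (8 * (dl p * t) + (-((1 - e1 p) * t)) + 2 * (ρ : ℝ) + (u : ℝ) * (p / (p + 1))) := by
        rw [Real.rpow_add (by norm_num), Real.rpow_add (by norm_num), Real.rpow_add (by norm_num)]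
    _ ≤ _ := by
        gcongr
        norm_num

end Pool.Agent.Helper36.EQ
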